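import Pool.Agent.Helper84.OB.Stmts

/-! Row RM of sheet OB (MP_ab4175_co): the rank in a minor. -/

set_option autoImplicit false

universe u

open Set Pool.Agent.Helper84.BT
open scoped Matroid

namespace Pool.Agent.Helper36.OB

open Pool.Agent.Helper84.OB

theorem st_RM : ST_RM.{u} := by
  intro α _ M Z G U hZ hG hd hU
  obtain ⟨I, hI⟩ := M.exists_isBasis Z hZ
  have hUE : U ⊆ ((M ／ Z) ↾ G).E := hU
  obtain ⟨J, hJ⟩ := ((M ／ Z) ↾ G).exists_isBasis U hUE
  have hJi : ((M ／ Z) ↾ G).Indep J := hJ.indep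
  rw [Matroid.restrict_indep_iff] at hJi
  have hJ2 := (hI.contract_indep_iff).1 hJi.1
  have hB : M.IsBasis (J ∪ I) (U ∪ Z) := by
    have hE : U ∪ Z ⊆ M.E := union_subset (hU.trans hG) hZ
    refine hJ2.1.isBasis_of_forall_insert (union_subset_union hJ.subset hI.subset) ?_
    rintro x ⟨hx, hxn⟩
    have hxE : insert x (J ∪ I) ⊆ M.E := insert_subset (hE hx)
      ((union_subset_union hJ.subset hI.subset).trans hE)
    rw [← M.not_indep_iff hxE]
    intro hind
    rcases hx with hx | hx
    · have hxZ : x ∉ Z := fun h => hd.ne_of_mem h (hU hx) rfl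
      have h1 : (M ／ Z).Indep (insert x J) := by
        refine hI.contract_indep_iff.2 ⟨?_, ?_⟩
        · rw [insert_union]
          exact hind
        · rw [disjoint_insert_right]
          exact ⟨hxZ, hJ2.2⟩
      have h2 : ((M ／ Z) ↾ G).Indep (insert x J) := by
        rw [Matroid.restrict_indep_iff]
        exact ⟨h1, insert_subset (hU hx) hJi.2⟩
      exact (hJ.insert_dep ⟨hx, fun h => hxn (Or.inl h)⟩).not_indep h2
    · have h1 := hI.insert_dep ⟨hx, fun h => hxn (Or.inr h)⟩
      exact h1.not_indep (hind.subset (insert_subset_insert subset_union_right))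
  have h1 := hB.ncard_eq_rk'
  have h2 := hJ.ncard_eq_rk'
  have h3 := hI.ncard_eq_rk'
  have hdj : Disjoint J I := (hJ2.2.symm).mono_right hI.subset
  rw [ncard_union_eq hdj (Set.toFinite _) (Set.toFinite _)] at h1
  omega

end Pool.Agent.Helper36.OB
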